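import Pool.Agent.UL6.Stmts

/-! Row SCL of squad UL6. -/

set_option autoImplicit false

namespace Pool.Agent.UL6.H3

open Pool.Agent.UL6 Pool.Agent.UL3

/-- the linear automorphism `diag (1, 1, s)` -/
noncomputable def scaleL (s : ℝ) (hs : s ≠ 0) : E3 ≃ₗ[ℝ] E3 where
  toFun x := WithLp.toLp 2 ![x 0, x 1, s * x 2]
  map_add' x y := by
    ext i
    fin_cases i
    · simp
    · simp
    · simp; ring
  map_smul' a x := by
    ext i
    fin_cases i
    · simp
    · simp
    · simp; ring
  invFun x := WithLp.toLp 2 ![x 0, x 1, s⁻¹ * x 2]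
  left_inv x := by
    ext i
    fin_cases i
    · simp
    · simp
    · simp [hs]
  right_inv x := by
    ext i
    fin_cases i
    · simp
    · simp
    · simp [hs]

theorem scaleL_zero (s : ℝ) (hs : s ≠ 0) (x : E3) : (scaleL s hs x) 0 = x 0 := by
  simp [scaleL]

theorem scaleL_one (s : ℝ) (hs : s ≠ 0) (x : E3) : (scaleL s hs x) 1 = x 1 := by
  simp [scaleL]

theorem scaleL_two (s : ℝ) (hs : s ≠ 0) (x : E3) : (scaleL s hs x) 2 = s * x 2 := by
  simp [scaleL]

theorem scl (inf : InfStmt) : SclStmt := by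
  intro C t ht hgood
  have hs : (0 : ℝ) < 1 - t := by linarith
  have hs' : (1 - t : ℝ) ≠ 0 := ne_of_gt hs
  refine inf (frg C (1 - t) 1) ((scaleL (1 - t) hs').toContinuousLinearEquiv) 0 ?_
  have himg : (fun x => (scaleL (1 - t) hs').toContinuousLinearEquiv (x - 0)) ''
      frg C (1 - t) 1 = frg C 1 (1 - t) := by
    ext y
    constructor
    · rintro ⟨x, ⟨h0, h1, c, hc, hx⟩, rfl⟩
      have e0 : (((scaleL (1 - t) hs').toContinuousLinearEquiv (x - 0) : E3)) 0 = x 0 := by
        rw [sub_zero]; exact scaleL_zero _ hs' x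
      have e1 : (((scaleL (1 - t) hs').toContinuousLinearEquiv (x - 0) : E3)) 1 = x 1 := by
        rw [sub_zero]; exact scaleL_one _ hs' x
      have e2 : (((scaleL (1 - t) hs').toContinuousLinearEquiv (x - 0) : E3)) 2
          = (1 - t) * x 2 := by
        rw [sub_zero]; exact scaleL_two _ hs' x
      refine ⟨?_, ?_, c, hc, ?_⟩
      · show 0 ≤ (((scaleL (1 - t) hs').toContinuousLinearEquiv (x - 0) : E3)) 2
        rw [e2]; positivity
      · show (((scaleL (1 - t) hs').toContinuousLinearEquiv (x - 0) : E3)) 2 ≤ 1 - t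
        rw [e2]; nlinarith
      · show ((((scaleL (1 - t) hs').toContinuousLinearEquiv (x - 0) : E3)) 0,
          (((scaleL (1 - t) hs').toContinuousLinearEquiv (x - 0) : E3)) 1)
          = (1 - 1 * (((scaleL (1 - t) hs').toContinuousLinearEquiv (x - 0) : E3)) 2) • c
        rw [e0, e1, e2, hx, one_mul]
    · rintro ⟨h0, h1, c, hc, hy⟩
      refine ⟨(scaleL (1 - t) hs').symm y, ?_, ?_⟩
      · have hy' : scaleL (1 - t) hs' ((scaleL (1 - t) hs').symm y) = y :=
          LinearEquiv.apply_symm_apply _ _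
        have e0 := scaleL_zero (1 - t) hs' ((scaleL (1 - t) hs').symm y)
        have e1 := scaleL_one (1 - t) hs' ((scaleL (1 - t) hs').symm y)
        have e2 := scaleL_two (1 - t) hs' ((scaleL (1 - t) hs').symm y)
        rw [hy'] at e0 e1 e2
        refine ⟨?_, ?_, c, hc, ?_⟩
        · rw [e2] at h0
          exact nonneg_of_mul_nonneg_right h0 hs
        · rw [e2] at h1
          have : (1 - t) * ((scaleL (1 - t) hs').symm y) 2 ≤ (1 - t) * 1 := by
            rw [mul_one]; exact h1
          exact le_of_mul_le_mul_left this hs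
        · rw [← e0, ← e1, hy, e2, one_mul]
      · show (scaleL (1 - t) hs').toContinuousLinearEquiv
          ((scaleL (1 - t) hs').symm y - 0) = y
        rw [sub_zero]
        exact LinearEquiv.apply_symm_apply _ _
  rw [himg]
  exact hgood

end Pool.Agent.UL6.H3
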