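import Pool.Agent.UL6.Stmts2
import Pool.Agent.Helper3_UL6.SCL

/-! Row SCM of squad UL6. -/

set_option autoImplicit false

namespace Pool.Agent.UL6.H3

open Pool.Agent.UL6 Pool.Agent.UL3

theorem scm (inm : InmStmt) : ScmStmt := by
  intro C t ht hgood
  have hs : (0 : ℝ) < 1 - t := by linarith
  have hs' : (1 - t : ℝ) ≠ 0 := ne_of_gt hs
  refine inm (tdd C t) ((scaleL (1 - t) hs').toContinuousLinearEquiv) 0 ?_
  have himg : (fun x => (scaleL (1 - t) hs').toContinuousLinearEquiv (x - 0)) ''
      tdd C t = tda C t := by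
    ext y
    constructor
    · rintro ⟨x, ⟨h1, c, hc, hx⟩, rfl⟩
      have e0 : (((scaleL (1 - t) hs').toContinuousLinearEquiv (x - 0) : E3)) 0 = x 0 := by
        rw [sub_zero]; exact scaleL_zero _ hs' x
      have e1 : (((scaleL (1 - t) hs').toContinuousLinearEquiv (x - 0) : E3)) 1 = x 1 := by
        rw [sub_zero]; exact scaleL_one _ hs' x
      have e2 : (((scaleL (1 - t) hs').toContinuousLinearEquiv (x - 0) : E3)) 2
          = (1 - t) * x 2 := by
        rw [sub_zero]; exact scaleL_two _ hs' x
      have e3 : |(1 - t) * x 2| = (1 - t) * |x 2| := by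
        rw [abs_mul, abs_of_pos hs]
      refine ⟨?_, c, hc, ?_⟩
      · show |(((scaleL (1 - t) hs').toContinuousLinearEquiv (x - 0) : E3)) 2| ≤ 1 - t
        rw [e2, e3]
        nlinarith
      · show ((((scaleL (1 - t) hs').toContinuousLinearEquiv (x - 0) : E3)) 0,
          (((scaleL (1 - t) hs').toContinuousLinearEquiv (x - 0) : E3)) 1)
          = (1 - |(((scaleL (1 - t) hs').toContinuousLinearEquiv (x - 0) : E3)) 2|) • c
        rw [e0, e1, e2, e3, hx]
    · rintro ⟨h1, c, hc, hy⟩
      refine ⟨(scaleL (1 - t) hs').symm y, ?_, ?_⟩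
      · have hy' : scaleL (1 - t) hs' ((scaleL (1 - t) hs').symm y) = y :=
          LinearEquiv.apply_symm_apply _ _
        have e0 := scaleL_zero (1 - t) hs' ((scaleL (1 - t) hs').symm y)
        have e1 := scaleL_one (1 - t) hs' ((scaleL (1 - t) hs').symm y)
        have e2 := scaleL_two (1 - t) hs' ((scaleL (1 - t) hs').symm y)
        rw [hy'] at e0 e1 e2
        have e3 : |y 2| = (1 - t) * |((scaleL (1 - t) hs').symm y) 2| := by
          rw [e2, abs_mul, abs_of_pos hs]
        refine ⟨?_, c, hc, ?_⟩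
        · rw [e3] at h1
          have : (1 - t) * |((scaleL (1 - t) hs').symm y) 2| ≤ (1 - t) * 1 := by
            rw [mul_one]; exact h1
          exact le_of_mul_le_mul_left this hs
        · rw [← e0, ← e1, hy, e3]
      · show (scaleL (1 - t) hs').toContinuousLinearEquiv
          ((scaleL (1 - t) hs').symm y - 0) = y
        rw [sub_zero]
        exact LinearEquiv.apply_symm_apply _ _
  rw [himg]
  exact hgood

end Pool.Agent.UL6.H3
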